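import Pool.Agent.Helper18.UW.GoalsG

set_option autoImplicit false

namespace Pool.Agent.Helper83.UW

open Finset
open Pool.Agent.Helper18.EW
open Pool.Agent.Helper18.UW
open Pool.Agent.Helper43.Hw (T na va lz Play aa ac sc oo sk U Dd Sd Pn nx bb np)

theorem goalE14v (hG8 : GoalG8u) : GoalE14v := by
  intro μ δ R b l q v τ s E y Dv ms e P hv1 hb42 hl1 hvb hvc hd ht1 ht2 hGrp hb hj hsy hyR hv hDv
  have hbl : 2 ^ 42 * l ≤ b * l := Nat.mul_le_mul_right l hb42
  have h2l : 2 * l + 4 ≤ 2 ^ q * v := by omega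
  rcases Nat.lt_or_ge (16 * (2 ^ q * v)) (R - 1 - y) with hw | hw
  · have h7 := hDv hw
    generalize uD R (b * (q + 1)) τ s ms e P y = Gv
    generalize R - 1 - y = w at h7 hw hv ⊢
    have h1 : b * l ≤ 160 * w := by omega
    calc w ^ 2 * (b * l + w) ≤ w ^ 2 * (160 * w + w) :=
          Nat.mul_le_mul_left _ (by omega)
      _ = 161 * w ^ 3 := by ring
      _ ≤ 161 * (8 * l * Dv) := Nat.mul_le_mul_left _ h7
      _ = (1288 * l) * Dv := by ring
      _ ≤ (4096 * l) * (Dv + Gv) := Nat.mul_le_mul (by omega) (by omega)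
  · have h8 := hG8 μ δ R b q τ s E v l y ms e P hv1 (by omega) hGrp ht1 ht2 h2l hd hb hj hsy
      hyR hv hw
    generalize uD R (b * (q + 1)) τ s ms e P y = Gv at h8 ⊢
    generalize R - 1 - y = w at h8 hw hv ⊢
    have h1 : 80 * w ≤ b * l := by omega
    have h2 : 80 * (b * l + w) ≤ 81 * (b * l) := by omega
    have h3 : 80 * (w ^ 2 * (b * l + w)) ≤ 80 * (4096 * l * (Dv + Gv)) := by
      calc 80 * (w ^ 2 * (b * l + w)) = w ^ 2 * (80 * (b * l + w)) := by ring
        _ ≤ w ^ 2 * (81 * (b * l)) := Nat.mul_le_mul_left _ h2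
        _ = (81 * l) * (b * w ^ 2) := by ring
        _ ≤ (81 * l) * (2048 * Gv) := Nat.mul_le_mul_left _ h8
        _ = (165888 * l) * Gv := by ring
        _ ≤ (327680 * l) * (Dv + Gv) := Nat.mul_le_mul (by omega) (by omega)
        _ = 80 * (4096 * l * (Dv + Gv)) := by ring
    exact Nat.le_of_mul_le_mul_left h3 (by norm_num)

end Pool.Agent.Helper83.UW
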